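import Pool.Agent.Helper42.LK.Defs

/-!
# Module CX: archimedean places, final form
-/

open Filter Topology

namespace Pool.Agent.Helper42.LK

open Pool.Agent.Helper42.LS

/-- affine change of variables `X = μ Z + e`, `Y = ν W` -/
private lemma cx_norm (a b e μ ν : ℂ) (X Y : ℕ → ℂ) (h : GSeq (0 : ℂ) a b X Y) (hμ : μ ≠ 0)
    (hν : ν ≠ 0) (hνμ : ν ^ 2 = μ ^ 3) (he : e ^ 3 + a * e + b = 0) (hμe : μ ^ 2 = 3 * e ^ 2 + a) :
    GSeq (3 * e / μ) 1 0 (fun k => (X k - e) / μ) (fun k => Y k / ν) := by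
  have key : ∀ lam : ℂ, (lam * (μ / ν)) ^ 2 = lam ^ 2 / μ := by
    intro lam
    rw [mul_pow, div_pow, hνμ]
    field_simp
  have sl1 : ∀ k l : ℕ, X k ≠ X l → (Y k / ν - Y l / ν) / ((X k - e) / μ - (X l - e) / μ) =
      ((Y k - Y l) / (X k - X l)) * (μ / ν) := by
    intro k l hkl
    have h1 : X k - X l ≠ 0 := sub_ne_zero.mpr hkl
    have h2 : (X k - e) / μ - (X l - e) / μ = (X k - X l) / μ := by ring
    rw [h2]
    field_simp
  have sl2 : ∀ k l : ℕ, X k ≠ X l → (Y k / ν + Y l / ν) / ((X k - e) / μ - (X l - e) / μ) =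
      ((Y k + Y l) / (X k - X l)) * (μ / ν) := by
    intro k l hkl
    have h1 : X k - X l ≠ 0 := sub_ne_zero.mpr hkl
    have h2 : (X k - e) / μ - (X l - e) / μ = (X k - X l) / μ := by ring
    rw [h2]
    field_simp
  have sl3 : ∀ k : ℕ, Y k ≠ 0 → (3 * ((X k - e) / μ) ^ 2 + 2 * (3 * e / μ) * ((X k - e) / μ) + 1) /
      (2 * (Y k / ν)) = ((3 * X k ^ 2 + 2 * 0 * X k + a) / (2 * Y k)) * (μ / ν) := by
    intro k hk
    have h2 : 3 * ((X k - e) / μ) ^ 2 + 2 * (3 * e / μ) * ((X k - e) / μ) + 1 =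
        (3 * X k ^ 2 + a) / μ ^ 2 := by
      field_simp
      linear_combination hμe
    rw [h2]
    have h3 : μ / ν = ν / μ ^ 2 := by
      field_simp
      linear_combination -hνμ
    rw [h3]
    field_simp
    ring
  constructor
  · intro k hk
    have h1 := h.curve k hk
    rw [div_pow, hνμ, h1]
    field_simp
    linear_combination he - (X k - e) * hμe
  · intro k hk
    exact div_ne_zero (h.yne k hk) hν
  · intro k l hl hk heq
    apply h.xne k l hl hk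
    change (X k - e) / μ = (X l - e) / μ at heq
    have h2 := (div_left_inj' hμ).mp heq
    linear_combination h2
  · intro k hk
    rw [sl3 k (h.yne k hk), key, h.dblx k hk]
    field_simp
    ring
  · intro k hk
    rw [sl3 k (h.yne k hk), h.dbly k hk]
    field_simp
    ring
  · intro k l hl hk
    rw [sl1 k l (h.xne k l hl hk), key, h.addx k l hl hk]
    field_simp
    ring
  · intro k l hl hk
    rw [sl1 k l (h.xne k l hl hk), h.addy k l hl hk]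
    field_simp
    ring
  · intro k l hl hk
    rw [sl2 k l (h.xne k l hl hk), key, h.subx k l hl hk]
    field_simp
    ring
  · intro k l hl hk
    rw [sl2 k l (h.xne k l hl hk), h.suby k l hl hk]
    field_simp
    ring

private lemma cx_B2 (t : ℝ) : B2 t ≤ 1 / 6 := by
  unfold B2
  have h1 := Int.fract_nonneg t
  have h2 := (Int.fract_lt_one t).le
  nlinarith

private lemma cx_B20 : B2 0 = 1 / 6 := by
  unfold B2
  simp

private lemma cx_j (a e μ κ D : ℂ) (hμ : μ ≠ 0) (hμe : μ ^ 2 = 3 * e ^ 2 + a)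
    (hκ : ‖κ‖ ≤ 1 / 100) (hκ0 : κ ≠ 0) (he : 3 * e = -(2 + κ) * μ)
    (hD : D = -(κ * (4 + κ)) * μ ^ 6) :
    1 / ‖κ‖ ≤ ‖6912 * a ^ 3 / D‖ ∧ ‖6912 * a ^ 3 / D‖ ≤ 100 / ‖κ‖ := by
  have hκn := norm_nonneg κ
  have h1 : 9 * e ^ 2 = (2 + κ) ^ 2 * μ ^ 2 := by
    linear_combination (3 * e - (2 + κ) * μ) * he
  have h2 : a = -(μ ^ 2 * (1 + 4 * κ + κ ^ 2)) / 3 := by
    linear_combination (-1) * hμe - h1 / 3
  have h4l : 399 / 100 ≤ ‖4 + κ‖ := by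
    have : ‖(4 : ℂ)‖ ≤ ‖4 + κ‖ + ‖κ‖ := by
      have := norm_sub_le (4 + κ) κ
      simpa using this
    have h4 : ‖(4 : ℂ)‖ = 4 := by simp
    linarith
  have h4u : ‖4 + κ‖ ≤ 401 / 100 := by
    have := norm_add_le (4 : ℂ) κ
    have h4 : ‖(4 : ℂ)‖ = 4 := by simp
    linarith
  have h40 : 4 + κ ≠ 0 := by
    intro h0
    rw [h0, norm_zero] at h4l
    linarith
  have h3 : 6912 * a ^ 3 / D = 256 * (1 + 4 * κ + κ ^ 2) ^ 3 / (κ * (4 + κ)) := by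
    rw [hD, h2]
    field_simp
    ring
  have hs : ‖4 * κ + κ ^ 2‖ ≤ 5 / 100 := by
    have := norm_add_le (4 * κ) (κ ^ 2)
    rw [norm_mul, norm_pow] at this
    have h4 : ‖(4 : ℂ)‖ = 4 := by simp
    rw [h4] at this
    nlinarith
  have h5 : 95 / 100 ≤ ‖1 + 4 * κ + κ ^ 2‖ := by
    have := norm_sub_le (1 + 4 * κ + κ ^ 2) (4 * κ + κ ^ 2)
    have e1 : 1 + 4 * κ + κ ^ 2 - (4 * κ + κ ^ 2) = 1 := by ring
    rw [e1, norm_one] at this
    linarith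
  have h6 : ‖1 + 4 * κ + κ ^ 2‖ ≤ 105 / 100 := by
    have := norm_add_le (1 : ℂ) (4 * κ + κ ^ 2)
    rw [← add_assoc, norm_one] at this
    linarith
  have h7 : (95 / 100 : ℝ) ^ 3 ≤ ‖1 + 4 * κ + κ ^ 2‖ ^ 3 := pow_le_pow_left₀ (by norm_num) h5 3
  have h8 : ‖1 + 4 * κ + κ ^ 2‖ ^ 3 ≤ (105 / 100 : ℝ) ^ 3 := pow_le_pow_left₀ (norm_nonneg _) h6 3
  have hκa : 0 < ‖κ‖ := norm_pos_iff.2 hκ0
  have h256 : ‖(256 : ℂ)‖ = 256 := by simp
  rw [h3, norm_div, norm_mul, norm_mul, norm_pow, h256]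
  have hp : 0 < ‖κ‖ * ‖4 + κ‖ := mul_pos hκa (by linarith)
  constructor
  · rw [div_le_div_iff₀ hκa hp]
    have a1 : ‖κ‖ * ‖4 + κ‖ ≤ ‖κ‖ * 5 := mul_le_mul_of_nonneg_left (by linarith) hκa.le
    have a2 : ‖κ‖ * 5 ≤ ‖κ‖ * (256 * ‖1 + 4 * κ + κ ^ 2‖ ^ 3) :=
      mul_le_mul_of_nonneg_left (by linarith) hκa.le
    linarith
  · rw [div_le_div_iff₀ hp hκa]
    have a1 : ‖κ‖ * 3 ≤ ‖κ‖ * ‖4 + κ‖ := mul_le_mul_of_nonneg_left (by linarith) hκa.le
    have a2 : ‖κ‖ * (256 * ‖1 + 4 * κ + κ ^ 2‖ ^ 3) ≤ ‖κ‖ * 300 :=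
      mul_le_mul_of_nonneg_left (by linarith) hκa.le
    linarith

/-- numerical comparison of the main terms -/
private lemma cx_main (a e μ κ D : ℂ) (hμ : μ ≠ 0) (hμe : μ ^ 2 = 3 * e ^ 2 + a)
    (hκ : ‖κ‖ ≤ 1 / 100) (hκ0 : κ ≠ 0) (he : 3 * e = -(2 + κ) * μ)
    (hD : D = -(κ * (4 + κ)) * μ ^ 6) (t : ℝ) :
    1 / 6 * Real.log ‖D‖ + max 0 (Real.log ‖6912 * a ^ 3 / D‖) * B2 t ≤
      Real.log ‖μ‖ + (-Real.log ‖κ‖) * (B2 t - 1 / 6) + (Real.log 5 + Real.log 100) := by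
  obtain ⟨j1, j2⟩ := cx_j a e μ κ D hμ hμe hκ hκ0 he hD
  have hκa : 0 < ‖κ‖ := norm_pos_iff.2 hκ0
  have hμa : 0 < ‖μ‖ := norm_pos_iff.2 hμ
  have hn4 : ‖(4 : ℂ)‖ = 4 := by simp
  have h4u : ‖4 + κ‖ ≤ 5 := by
    have := norm_add_le (4 : ℂ) κ
    linarith
  have h4 : 0 < ‖4 + κ‖ := by
    have : ‖(4 : ℂ)‖ ≤ ‖4 + κ‖ + ‖κ‖ := by
      have := norm_sub_le (4 + κ) κ
      simpa using this
    linarith
  have hlD : Real.log ‖D‖ = Real.log ‖κ‖ + Real.log ‖4 + κ‖ + 6 * Real.log ‖μ‖ := by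
    rw [hD, norm_mul, norm_neg, norm_mul, norm_pow,
      Real.log_mul (by positivity) (by positivity), Real.log_mul (by positivity) (by positivity),
      Real.log_pow]
    norm_num
  have l5 : Real.log ‖4 + κ‖ ≤ Real.log 5 := Real.log_le_log h4 h4u
  have l5' : 0 ≤ Real.log 5 := Real.log_nonneg (by norm_num)
  have l100 : 0 ≤ Real.log 100 := Real.log_nonneg (by norm_num)
  have lk : Real.log ‖κ‖ ≤ 0 := Real.log_nonpos hκa.le (by linarith)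
  have m1 : -Real.log ‖κ‖ ≤ Real.log ‖6912 * a ^ 3 / D‖ := by
    have := Real.log_le_log (by positivity) j1
    rw [one_div, Real.log_inv] at this
    exact this
  have m2 : Real.log ‖6912 * a ^ 3 / D‖ ≤ Real.log 100 - Real.log ‖κ‖ := by
    have h0 : 0 < ‖6912 * a ^ 3 / D‖ := lt_of_lt_of_le (by positivity) j1
    have := Real.log_le_log h0 j2
    rw [Real.log_div (by norm_num) hκa.ne'] at this
    exact this
  have m3 : max 0 (Real.log ‖6912 * a ^ 3 / D‖) = Real.log ‖6912 * a ^ 3 / D‖ :=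
    max_eq_right (by linarith)
  rw [m3, hlD]
  have hb := cx_B2 t
  have m4 : (Real.log ‖6912 * a ^ 3 / D‖ + Real.log ‖κ‖) * B2 t ≤
      (Real.log ‖6912 * a ^ 3 / D‖ + Real.log ‖κ‖) * (1 / 6) :=
    mul_le_mul_of_nonneg_left hb (by linarith)
  linarith

private lemma cx_up (x Z e μ : ℂ) (hμ : μ ≠ 0) (hZ : Z = (x - e) / μ) (U : ℝ)
    (hU : U ≤ Real.log (max ‖Z‖ 1)) :
    U + Real.log ‖μ‖ ≤
      Real.log (max ‖x‖ 1) + (Real.log (max ((1 + ‖e‖) / ‖μ‖) 1) + Real.log ‖μ‖) := by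
  have hμa : 0 < ‖μ‖ := norm_pos_iff.2 hμ
  have h1 : 0 < max ‖x‖ 1 := lt_of_lt_of_le one_pos (le_max_right _ _)
  have h2 : 0 < max ((1 + ‖e‖) / ‖μ‖) 1 := lt_of_lt_of_le one_pos (le_max_right _ _)
  have h3 : max ‖Z‖ 1 ≤ max ‖x‖ 1 * max ((1 + ‖e‖) / ‖μ‖) 1 := by
    apply max_le
    · rw [hZ, norm_div]
      have h4 : ‖x - e‖ ≤ max ‖x‖ 1 * (1 + ‖e‖) := by
        have j1 : ‖x‖ ≤ max ‖x‖ 1 := le_max_left _ _
        have j2 : ‖e‖ * 1 ≤ ‖e‖ * max ‖x‖ 1 :=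
          mul_le_mul_of_nonneg_left (le_max_right _ _) (norm_nonneg e)
        linarith [norm_sub_le x e]
      calc ‖x - e‖ / ‖μ‖ ≤ max ‖x‖ 1 * (1 + ‖e‖) / ‖μ‖ := div_le_div_of_nonneg_right h4 hμa.le
        _ = max ‖x‖ 1 * ((1 + ‖e‖) / ‖μ‖) := by ring
        _ ≤ _ := mul_le_mul_of_nonneg_left (le_max_left _ _) h1.le
    · calc (1 : ℝ) = 1 * 1 := by ring
        _ ≤ _ := mul_le_mul (le_max_right _ _) (le_max_right _ _) one_pos.le h1.le
  have h5 : Real.log (max ‖Z‖ 1) ≤ Real.log (max ‖x‖ 1 * max ((1 + ‖e‖) / ‖μ‖) 1) :=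
    Real.log_le_log (lt_of_lt_of_le one_pos (le_max_right _ _)) h3
  rw [Real.log_mul h1.ne' h2.ne'] at h5
  linarith

theorem st_CX (hC0 : ST_C0) (hCR : ST_CR) (hCS : ST_CS) : ST_CX := by
  obtain ⟨C₁, hC₁⟩ := hCS
  obtain ⟨J₀, hJ₀, hJ⟩ := hCR
  obtain ⟨C₃, hC₃⟩ := hC0 J₀
  have l5 : 0 ≤ Real.log 5 := Real.log_nonneg (by norm_num)
  have l100 : 0 ≤ Real.log 100 := Real.log_nonneg (by norm_num)
  have lJ : 0 ≤ Real.log J₀ := Real.log_nonneg hJ₀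
  have a1 := le_abs_self C₁
  have a3 := le_abs_self C₃
  have b1 := abs_nonneg C₁
  have b3 := abs_nonneg C₃
  refine ⟨|C₁| + |C₃| + Real.log J₀ + (Real.log 5 + Real.log 100), by positivity, ?_⟩
  intro A B hd x y hG
  have hcu : ∀ k : ℕ, 1 ≤ k → cu A B (x k) = y k ^ 2 := by
    intro k hk
    rw [hG.curve k hk]
    unfold cu
    ring
  rcases le_or_gt ‖6912 * A ^ 3‖ (J₀ * ‖dsc A B‖) with hc | hc
  · -- bounded `j`
    obtain ⟨U, u1, ⟨C, u2⟩, u3⟩ := hC₃ A B hd hc _ _ hG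
    refine ⟨U, 0, ?_, ⟨C, u2⟩, ?_⟩
    · intro k hk
      have i1 := u1 k hk
      rw [hcu k hk]
      linarith
    · intro k hk
      have i1 := u3 k hk
      rw [mul_zero, cx_B20]
      have i2 : max 0 (Real.log ‖6912 * A ^ 3 / dsc A B‖) ≤ Real.log J₀ := by
        apply max_le lJ
        rw [norm_div]
        have hdn : 0 < ‖dsc A B‖ := norm_pos_iff.2 hd
        have i3 : ‖6912 * A ^ 3‖ / ‖dsc A B‖ ≤ J₀ := by
          rw [div_le_iff₀ hdn]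
          exact hc
        rcases eq_or_lt_of_le (div_nonneg (norm_nonneg (6912 * A ^ 3)) hdn.le) with h0 | h0
        · rw [← h0, Real.log_zero]
          exact lJ
        · exact Real.log_le_log h0 i3
      linarith
  · obtain ⟨e, μ, κ, hμ, he0, hμe, hκ, hκ0, he, hD⟩ := hJ A B hd hc
    obtain ⟨ν, hνμ⟩ : ∃ ν : ℂ, ν ^ 2 = μ ^ 3 := IsAlgClosed.exists_pow_nat_eq _ (by norm_num)
    have hν : ν ≠ 0 := by
      intro h0
      rw [h0] at hνμ
      have : μ ^ 3 ≠ 0 := pow_ne_zero _ hμ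
      apply this
      rw [← hνμ]; simp
    have hN := cx_norm A B e μ ν _ _ hG hμ hν hνμ he0 hμe
    have hae : 3 * e / μ = -(2 + κ) := by
      field_simp
      linear_combination he
    rw [hae] at hN
    obtain ⟨U', τ, u1, u2, u3⟩ := hC₁ κ hκ0 hκ _ _ hN
    have hμa : 0 < ‖μ‖ := norm_pos_iff.2 hμ
    refine ⟨fun k => U' k + Real.log ‖μ‖, τ, ?_,
      ⟨Real.log (max ((1 + ‖e‖) / ‖μ‖) 1) + Real.log ‖μ‖, ?_⟩, ?_⟩
    · intro k hk
      have i1 := u1 k hk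
      have hy := hG.yne k hk
      have i4 : 4 * cu A B (x k) = μ ^ 3 * (4 * (y k / ν) ^ 2) := by
        rw [hcu k hk, div_pow, hνμ]
        field_simp
      have i5 : (4 * (y k / ν) ^ 2 : ℂ) ≠ 0 :=
        mul_ne_zero (by norm_num) (pow_ne_zero _ (div_ne_zero hy hν))
      rw [i4, norm_mul, Real.log_mul (norm_ne_zero_iff.2 (pow_ne_zero _ hμ))
        (norm_ne_zero_iff.2 i5), norm_pow, Real.log_pow]
      push_cast
      beta_reduce at i1 ⊢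
      linarith
    · intro k hk
      exact cx_up (x k) _ e μ hμ rfl (U' k) (u2 k hk)
    · intro k hk
      have i1 := u3 k hk
      have i2 := cx_main A e μ κ _ hμ hμe hκ hκ0 he hD (k * τ)
      beta_reduce
      linarith

end Pool.Agent.Helper42.LK
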