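import Pool.Agent.Helper42.LK.Defs

/-!
# Modules KPG, KPS: potentially good places
-/

namespace Pool.Agent.Helper42.LK

open Pool.Agent.Helper42.LS

variable {F : Type} [Field F]

private lemma kpg_nr_nonneg (v : DV F) (x : F) : 0 ≤ v.nr x := v.nr_nonneg x

private lemma kpg_nr_add_le (v : DV F) {q r : F} {M : ℝ} (h1 : v.nr q ≤ M) (h2 : v.nr r ≤ M) :
    v.nr (q + r) ≤ M := (v.nr_add_le q r).trans (max_le h1 h2)

private lemma kpg_nr_sub_le (v : DV F) {q r : F} {M : ℝ} (h1 : v.nr q ≤ M) (h2 : v.nr r ≤ M) :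
    v.nr (q - r) ≤ M := (v.nr_sub_le q r).trans (max_le h1 h2)

/-- multiplication by a natural number does not increase the norm -/
private lemma kpg_nr_natmul (v : DV F) (n : ℕ) {q : F} {M : ℝ} (h : v.nr q ≤ M) :
    v.nr ((n : F) * q) ≤ M := by
  rw [v.nr_mul]
  have h1 := v.nr_natCast n
  have h2 := v.nr_nonneg q
  nlinarith [v.nr_nonneg (n : F)]

/-- the basic inequality -/
private lemma kpg_core (v : DV F) (A B x : F) (R s f : ℝ) (hR : 0 < R) (hs : 1 ≤ s)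
    (hf : 1 ≤ f) (hD : v.nr (dsc A B) = R ^ 6) (hA : v.nr A ≤ s ^ 2 * R ^ 2)
    (hB : v.nr B ≤ s ^ 3 * R ^ 3) (h4 : ∀ q : F, v.nr q ≤ f * v.nr (4 * q)) :
    max (v.nr x) R ^ 4 ≤ s ^ 7 * f * max (v.nr (th A B x)) (R * v.nr (4 * cu A B x)) := by
  have hx0 := kpg_nr_nonneg v x
  have hA0 := kpg_nr_nonneg v A
  have hB0 := kpg_nr_nonneg v B
  have ht0 := kpg_nr_nonneg v (th A B x)
  have hc0 := kpg_nr_nonneg v (cu A B x)
  have hc4 := kpg_nr_nonneg v (4 * cu A B x)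
  have hs7 : (1 : ℝ) ≤ s ^ 7 * f := by
    have : (1 : ℝ) ≤ s ^ 7 := one_le_pow₀ hs
    nlinarith
  by_cases hx : s * R < v.nr x
  · -- big x
    have hxR : R ≤ v.nr x := by nlinarith
    rw [max_eq_left hxR]
    have hxp : 0 < v.nr x := lt_of_lt_of_le hR hxR
    have b1 : v.nr A < v.nr x ^ 2 := by nlinarith [mul_pos (lt_of_lt_of_le one_pos hs) hR]
    have hsR : 0 < s * R := mul_pos (lt_of_lt_of_le one_pos hs) hR
    have b2 : v.nr B < v.nr x ^ 3 := by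
      have : (s * R) ^ 3 < v.nr x ^ 3 := pow_lt_pow_left₀ hx hsR.le (by norm_num)
      have e : (s * R) ^ 3 = s ^ 3 * R ^ 3 := by ring
      linarith
    have hrest : v.nr (x ^ 4 - th A B x) < v.nr x ^ 4 := by
      have e : x ^ 4 - th A B x = ((2 : ℕ) : F) * (A * x ^ 2) + ((8 : ℕ) : F) * (B * x) - A ^ 2 := by
        unfold th; push_cast; ring
      rw [e]
      have c1 : v.nr (A * x ^ 2) < v.nr x ^ 4 := by
        rw [v.nr_mul, v.nr_pow]
        nlinarith [pow_pos hxp 2]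
      have c2 : v.nr (B * x) < v.nr x ^ 4 := by
        rw [v.nr_mul]
        nlinarith [pow_pos hxp 3]
      have c3 : v.nr (A ^ 2) < v.nr x ^ 4 := by
        rw [v.nr_pow]
        have : v.nr A ^ 2 < (v.nr x ^ 2) ^ 2 := pow_lt_pow_left₀ b1 hA0 (by norm_num)
        have e : (v.nr x ^ 2) ^ 2 = v.nr x ^ 4 := by ring
        linarith
      have d1 := kpg_nr_natmul v 2 (le_refl (v.nr (A * x ^ 2)))
      have d2 := kpg_nr_natmul v 8 (le_refl (v.nr (B * x)))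
      refine lt_of_le_of_lt (v.nr_sub_le _ _) (max_lt ?_ c3)
      exact lt_of_le_of_lt (v.nr_add_le _ _) (max_lt (d1.trans_lt c1) (d2.trans_lt c2))
    have h5 : v.nr x ^ 4 ≤ v.nr (th A B x) := by
      by_contra hcon
      push Not at hcon
      have e : x ^ 4 = (x ^ 4 - th A B x) + th A B x := by ring
      have := v.nr_add_le (x ^ 4 - th A B x) (th A B x)
      rw [← e, v.nr_pow] at this
      have := lt_of_le_of_lt this (max_lt hrest hcon)
      exact lt_irrefl _ this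
    have h6 : v.nr (th A B x) ≤ max (v.nr (th A B x)) (R * v.nr (4 * cu A B x)) := le_max_left _ _
    have h7 : 0 ≤ max (v.nr (th A B x)) (R * v.nr (4 * cu A B x)) := ht0.trans h6
    nlinarith
  · push Not at hx
    set Mx := max (v.nr (th A B x)) (R * v.nr (4 * cu A B x)) with hMx
    have hM0 : 0 ≤ Mx := ht0.trans (le_max_left _ _)
    have hth : v.nr (th A B x) ≤ Mx := le_max_left _ _
    have hcu : R * v.nr (4 * cu A B x) ≤ Mx := le_max_right _ _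
    have hsR : 0 < s * R := mul_pos (lt_of_lt_of_le one_pos hs) hR
    have key : (3 * x ^ 2 + 4 * A) * th A B x - (3 * x ^ 3 - 5 * A * x - 27 * B) * cu A B x =
        dsc A B := by
      unfold th cu dsc; ring
    have k1 : v.nr (3 * x ^ 2 + 4 * A) ≤ s ^ 2 * R ^ 2 := by
      have a1 : v.nr (((3 : ℕ) : F) * x ^ 2) ≤ s ^ 2 * R ^ 2 := by
        apply kpg_nr_natmul
        rw [v.nr_pow]
        have : v.nr x ^ 2 ≤ (s * R) ^ 2 := pow_le_pow_left₀ hx0 hx 2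
        have e : (s * R) ^ 2 = s ^ 2 * R ^ 2 := by ring
        linarith
      have a2 : v.nr (((4 : ℕ) : F) * A) ≤ s ^ 2 * R ^ 2 := kpg_nr_natmul v 4 hA
      exact_mod_cast kpg_nr_add_le v a1 a2
    have k2 : v.nr (3 * x ^ 3 - 5 * A * x - 27 * B) ≤ s ^ 3 * R ^ 3 := by
      have a1 : v.nr (((3 : ℕ) : F) * x ^ 3) ≤ s ^ 3 * R ^ 3 := by
        apply kpg_nr_natmul
        rw [v.nr_pow]
        have : v.nr x ^ 3 ≤ (s * R) ^ 3 := pow_le_pow_left₀ hx0 hx 3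
        have e : (s * R) ^ 3 = s ^ 3 * R ^ 3 := by ring
        linarith
      have a2 : v.nr (((5 : ℕ) : F) * (A * x)) ≤ s ^ 3 * R ^ 3 := by
        apply kpg_nr_natmul
        rw [v.nr_mul]
        calc v.nr A * v.nr x ≤ (s ^ 2 * R ^ 2) * (s * R) :=
              mul_le_mul hA hx hx0 (by positivity)
          _ = s ^ 3 * R ^ 3 := by ring
      have a3 : v.nr (((27 : ℕ) : F) * B) ≤ s ^ 3 * R ^ 3 := kpg_nr_natmul v 27 hB
      have := kpg_nr_sub_le v (kpg_nr_sub_le v a1 a2) a3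
      have e : 3 * x ^ 3 - 5 * A * x - 27 * B =
        ((3 : ℕ) : F) * x ^ 3 - ((5 : ℕ) : F) * (A * x) - ((27 : ℕ) : F) * B := by push_cast; ring
      rw [e]; exact this
    have k3 : R ^ 6 ≤ s ^ 3 * f * R ^ 2 * Mx := by
      rw [← hD, ← key]
      apply kpg_nr_sub_le v
      · rw [v.nr_mul]
        have s1 : s ^ 2 ≤ s ^ 3 * f := by
          have : s ^ 3 * f = s ^ 2 * (s * f) := by ring
          rw [this]
          have hsf : 1 ≤ s * f := by nlinarith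
          nlinarith [pow_pos (lt_of_lt_of_le one_pos hs) 2]
        calc v.nr (3 * x ^ 2 + 4 * A) * v.nr (th A B x) ≤ (s ^ 2 * R ^ 2) * Mx :=
              mul_le_mul k1 hth ht0 (by positivity)
          _ = s ^ 2 * (R ^ 2 * Mx) := by ring
          _ ≤ (s ^ 3 * f) * (R ^ 2 * Mx) := by
              apply mul_le_mul_of_nonneg_right s1 (by positivity)
          _ = s ^ 3 * f * R ^ 2 * Mx := by ring
      · rw [v.nr_mul]
        have hf0 : 0 ≤ f := by linarith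
        calc v.nr (3 * x ^ 3 - 5 * A * x - 27 * B) * v.nr (cu A B x)
            ≤ (s ^ 3 * R ^ 3) * (f * v.nr (4 * cu A B x)) :=
              mul_le_mul k2 (h4 _) hc0 (by positivity)
          _ = (s ^ 3 * f * R ^ 2) * (R * v.nr (4 * cu A B x)) := by ring
          _ ≤ (s ^ 3 * f * R ^ 2) * Mx := by
              apply mul_le_mul_of_nonneg_left hcu (by positivity)
          _ = s ^ 3 * f * R ^ 2 * Mx := by ring
    have k4 : R ^ 4 ≤ s ^ 3 * f * Mx := by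
      have : R ^ 2 * R ^ 4 ≤ R ^ 2 * (s ^ 3 * f * Mx) := by nlinarith
      exact le_of_mul_le_mul_left this (by positivity)
    have k5 : max (v.nr x) R ≤ s * R := max_le hx (by nlinarith)
    have k6 : max (v.nr x) R ^ 4 ≤ (s * R) ^ 4 :=
      pow_le_pow_left₀ (hx0.trans (le_max_left _ _)) k5 4
    calc max (v.nr x) R ^ 4 ≤ (s * R) ^ 4 := k6
      _ = s ^ 4 * R ^ 4 := by ring
      _ ≤ s ^ 4 * (s ^ 3 * f * Mx) := by
          apply mul_le_mul_of_nonneg_left k4 (by positivity)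
      _ = s ^ 7 * f * Mx := by ring

/-- `X (2k) * 4 cu = th` -/
private lemma kpg_dbl [CharZero F] {A B : F} {x y : ℕ → F} (h : GSeq (0 : F) A B x y) (k : ℕ) (hk : 1 ≤ k) :
    x (2 * k) * (4 * cu A B (x k)) = th A B (x k) ∧ cu A B (x k) ≠ 0 := by
  have h1 := h.dblx k hk
  have h2 := h.curve k hk
  have h3 := h.yne k hk
  have h4 : cu A B (x k) = y k ^ 2 := by unfold cu; rw [h2]; ring
  refine ⟨?_, ?_⟩
  · rw [h1, h4]
    have h5 : (((3 * x k ^ 2 + 2 * 0 * x k + A) / (2 * y k)) ^ 2 - 0 - 2 * x k) * (4 * y k ^ 2) =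
        (3 * x k ^ 2 + A) ^ 2 - 8 * x k * y k ^ 2 := by
      field_simp; ring
    rw [h5, h2]; unfold th; ring
  · rw [h4]; exact pow_ne_zero 2 h3

/-- general form -/
private lemma kpg_main [CharZero F] (v : DV F) (A B : F) (hD0 : dsc A B ≠ 0) (s f : ℝ) (hs : 1 ≤ s)
    (hf : 1 ≤ f) (hA : v.nr A ^ 3 ≤ s ^ 6 * v.nr (dsc A B))
    (hB : v.nr B ^ 2 ≤ s ^ 6 * v.nr (dsc A B)) (h4 : ∀ q : F, v.nr q ≤ f * v.nr (4 * q))
    (x y : ℕ → F) (hG : GSeq (0 : F) A B x y) :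
    ∃ U : ℕ → ℝ, (∀ k : ℕ, 1 ≤ k → 4 * U k - Real.log (s ^ 7 * f) ≤
        U (2 * k) + Real.log (v.nr (4 * cu A B (x k)))) ∧
    (∃ C : ℝ, ∀ k : ℕ, 1 ≤ k → U k ≤ Real.log (max (v.nr (x k)) 1) + C) ∧
    (∀ k : ℕ, 1 ≤ k → 1 / 6 * Real.log (v.nr (dsc A B)) ≤ U k) ∧
    (∀ k : ℕ, 1 ≤ k → 1 ≤ v.nr (x k) → 0 ≤ U k) := by
  have hDp : 0 < v.nr (dsc A B) := v.nr_pos hD0
  set R : ℝ := (v.nr (dsc A B)) ^ (1 / 6 : ℝ) with hR
  have hRp : 0 < R := Real.rpow_pos_of_pos hDp _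
  have hR6 : v.nr (dsc A B) = R ^ 6 := by
    rw [hR, ← Real.rpow_natCast, ← Real.rpow_mul hDp.le]
    norm_num
  have hs0 : 0 < s := by linarith
  have hA2 : v.nr A ≤ s ^ 2 * R ^ 2 := by
    have : v.nr A ^ 3 ≤ (s ^ 2 * R ^ 2) ^ 3 := by
      rw [hR6] at hA
      calc v.nr A ^ 3 ≤ s ^ 6 * R ^ 6 := hA
        _ = (s ^ 2 * R ^ 2) ^ 3 := by ring
    exact le_of_pow_le_pow_left₀ (by norm_num) (by positivity) this
  have hB2 : v.nr B ≤ s ^ 3 * R ^ 3 := by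
    have : v.nr B ^ 2 ≤ (s ^ 3 * R ^ 3) ^ 2 := by
      rw [hR6] at hB
      calc v.nr B ^ 2 ≤ s ^ 6 * R ^ 6 := hB
        _ = (s ^ 3 * R ^ 3) ^ 2 := by ring
    exact le_of_pow_le_pow_left₀ (by norm_num) (by positivity) this
  refine ⟨fun k => Real.log (max (v.nr (x k)) R), ?_, ?_, ?_, ?_⟩
  · intro k hk
    obtain ⟨d1, d2⟩ := kpg_dbl hG k hk
    have hcore := kpg_core v A B (x k) R s f hRp hs hf hR6 hA2 hB2 h4
    have h4c : 0 < v.nr (4 * cu A B (x k)) := v.nr_pos (mul_ne_zero (by norm_num) d2)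
    have hmx : max (v.nr (th A B (x k))) (R * v.nr (4 * cu A B (x k))) =
        max (v.nr (x (2 * k))) R * v.nr (4 * cu A B (x k)) := by
      rw [← d1, v.nr_mul, max_mul_of_nonneg _ _ h4c.le]
    rw [hmx] at hcore
    have p1 : 0 < max (v.nr (x k)) R := lt_max_of_lt_right hRp
    have p2 : 0 < max (v.nr (x (2 * k))) R := lt_max_of_lt_right hRp
    have hsf : 0 < s ^ 7 * f := by positivity
    have hl := Real.log_le_log (pow_pos p1 4) hcore
    rw [Real.log_pow, Real.log_mul hsf.ne' (mul_pos p2 h4c).ne', Real.log_mul p2.ne' h4c.ne'] at hl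
    push_cast at hl
    linarith
  · refine ⟨Real.log (max R 1), ?_⟩
    intro k hk
    have p1 : 0 < max (v.nr (x k)) R := lt_max_of_lt_right hRp
    have q1 : (1 : ℝ) ≤ max (v.nr (x k)) 1 := le_max_right _ _
    have q2 : (1 : ℝ) ≤ max R 1 := le_max_right _ _
    rw [← Real.log_mul (by linarith) (by linarith)]
    apply Real.log_le_log p1
    have r1 := kpg_nr_nonneg v (x k)
    apply max_le
    · calc v.nr (x k) ≤ max (v.nr (x k)) 1 := le_max_left _ _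
        _ = max (v.nr (x k)) 1 * 1 := by ring
        _ ≤ max (v.nr (x k)) 1 * max R 1 := by
            apply mul_le_mul_of_nonneg_left q2 (by linarith)
    · calc R ≤ max R 1 := le_max_left _ _
        _ = 1 * max R 1 := by ring
        _ ≤ max (v.nr (x k)) 1 * max R 1 := by
            apply mul_le_mul_of_nonneg_right q1 (by linarith)
  · intro k hk
    rw [← Real.log_rpow hDp]
    exact Real.log_le_log hRp (le_max_right _ _)
  · intro k hk h1
    exact Real.log_nonneg (h1.trans (le_max_left _ _))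

theorem st_KPG : ST_KPG := by
  intro F _ _ v h2 h3 A B hD hle x y hG
  have e2 : v.nr 2 = 1 := (v.nr_eq_one_iff (by norm_num)).2 h2
  have e3 : v.nr 3 = 1 := (v.nr_eq_one_iff (by norm_num)).2 h3
  have hA : v.nr A ^ 3 ≤ v.nr (dsc A B) := by
    have e : (6912 : F) * A ^ 3 = 2 ^ 8 * 3 ^ 3 * A ^ 3 := by ring
    rw [e, v.nr_mul, v.nr_mul, v.nr_pow, v.nr_pow, v.nr_pow, e2, e3] at hle
    linarith
  have hB : v.nr B ^ 2 ≤ v.nr (dsc A B) := by
    have e : (3 : F) ^ 3 * B ^ 2 = dsc A B - 2 ^ 2 * A ^ 3 := by unfold dsc; ring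
    have h1 : v.nr ((3 : F) ^ 3 * B ^ 2) ≤ v.nr (dsc A B) := by
      rw [e]
      apply kpg_nr_sub_le v (le_refl _)
      rw [v.nr_mul, v.nr_pow, v.nr_pow, e2]; linarith
    rw [v.nr_mul, v.nr_pow, v.nr_pow, e3] at h1
    linarith
  obtain ⟨U, h1, h2, h3, h4⟩ := kpg_main v A B hD 1 1 le_rfl le_rfl (by simpa using hA)
    (by simpa using hB) (by
      intro q
      have e : (4 : F) * q = 2 ^ 2 * q := by ring
      rw [e, v.nr_mul, v.nr_pow, e2]; linarith) x y hG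
  refine ⟨U, ?_, h2, h3, h4⟩
  intro k hk
  have := h1 k hk
  simpa using this

theorem st_KPS : ST_KPS := by
  intro F _ _ v
  have p2 : 0 < v.nr (2 : F) := v.nr_pos (by norm_num)
  have p3 : 0 < v.nr (3 : F) := v.nr_pos (by norm_num)
  have l2 : v.nr (2 : F) ≤ 1 := v.nr_ofNat 2
  have l3 : v.nr (3 : F) ≤ 1 := v.nr_ofNat 3
  set a : ℝ := v.nr (2 : F) with ha
  set b : ℝ := v.nr (3 : F) with hb
  have hw : 0 < a ^ 8 * b ^ 3 := by positivity
  have a2 : a ^ 2 ≤ 1 := pow_le_one₀ p2.le l2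
  have a8 : a ^ 8 ≤ 1 := pow_le_one₀ p2.le l2
  have b3 : b ^ 3 ≤ 1 := pow_le_one₀ p3.le l3
  have hw1 : a ^ 8 * b ^ 3 ≤ 1 := mul_le_one₀ a8 (by positivity) b3
  set s : ℝ := (a ^ 8 * b ^ 3)⁻¹ with hs
  have hs1 : 1 ≤ s := (one_le_inv₀ hw).2 hw1
  have hs0 : 0 < s := by linarith
  have hsw : s * (a ^ 8 * b ^ 3) = 1 := inv_mul_cancel₀ hw.ne'
  set f : ℝ := (a ^ 2)⁻¹ with hf
  have hf1 : 1 ≤ f := (one_le_inv₀ (by positivity)).2 a2
  have hf0 : 0 < f := by linarith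
  have hfa : f * a ^ 2 = 1 := inv_mul_cancel₀ (by positivity)
  have hs7 : 1 ≤ s ^ 7 * f := by
    have : 1 ≤ s ^ 7 := one_le_pow₀ hs1
    nlinarith
  refine ⟨Real.log (s ^ 7 * f), Real.log_nonneg hs7, ?_⟩
  intro A B hD hle x y hG
  have hDn := v.nr_nonneg (dsc A B)
  have hA1 : v.nr A ^ 3 ≤ s * v.nr (dsc A B) := by
    have e : (6912 : F) * A ^ 3 = 2 ^ 8 * 3 ^ 3 * A ^ 3 := by ring
    rw [e, v.nr_mul, v.nr_mul, v.nr_pow, v.nr_pow, v.nr_pow, ← ha, ← hb] at hle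
    calc v.nr A ^ 3 = s * (a ^ 8 * b ^ 3) * v.nr A ^ 3 := by rw [hsw, one_mul]
      _ = s * (a ^ 8 * b ^ 3 * v.nr A ^ 3) := by ring
      _ ≤ s * v.nr (dsc A B) := mul_le_mul_of_nonneg_left hle hs0.le
  have hs6 : s ≤ s ^ 6 := le_self_pow₀ hs1 (by norm_num)
  have hs26 : s ^ 2 ≤ s ^ 6 := pow_le_pow_right₀ hs1 (by norm_num)
  have hA : v.nr A ^ 3 ≤ s ^ 6 * v.nr (dsc A B) :=
    hA1.trans (mul_le_mul_of_nonneg_right hs6 hDn)
  have hA0 : 0 ≤ v.nr A ^ 3 := pow_nonneg (v.nr_nonneg A) 3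
  have hB : v.nr B ^ 2 ≤ s ^ 6 * v.nr (dsc A B) := by
    have e : (3 : F) ^ 3 * B ^ 2 = dsc A B - 2 ^ 2 * A ^ 3 := by unfold dsc; ring
    have h1 : v.nr ((3 : F) ^ 3 * B ^ 2) ≤ s * v.nr (dsc A B) := by
      rw [e]
      apply kpg_nr_sub_le v (by nlinarith)
      rw [v.nr_mul, v.nr_pow, v.nr_pow, ← ha]
      nlinarith
    rw [v.nr_mul, v.nr_pow, v.nr_pow, ← hb] at h1
    have hB0 : 0 ≤ v.nr B ^ 2 := pow_nonneg (v.nr_nonneg B) 2
    have h5 : a ^ 8 * (b ^ 3 * v.nr B ^ 2) ≤ b ^ 3 * v.nr B ^ 2 := by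
      have : 0 ≤ b ^ 3 * v.nr B ^ 2 := by positivity
      nlinarith
    calc v.nr B ^ 2 = s * (a ^ 8 * b ^ 3) * v.nr B ^ 2 := by rw [hsw, one_mul]
      _ = s * (a ^ 8 * (b ^ 3 * v.nr B ^ 2)) := by ring
      _ ≤ s * (s * v.nr (dsc A B)) := mul_le_mul_of_nonneg_left (h5.trans h1) hs0.le
      _ = s ^ 2 * v.nr (dsc A B) := by ring
      _ ≤ s ^ 6 * v.nr (dsc A B) := mul_le_mul_of_nonneg_right hs26 hDn
  obtain ⟨U, h1, h2, h3, h4⟩ := kpg_main v A B hD s f hs1 hf1 hA hB (by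
      intro q
      have e : (4 : F) * q = 2 ^ 2 * q := by ring
      rw [e, v.nr_mul, v.nr_pow, ← ha, ← mul_assoc, hfa, one_mul]) x y hG
  exact ⟨U, h1, h2, h3⟩

end Pool.Agent.Helper42.LK
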